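import Pool.Agent.H829.GraphProducts

/-!
# The Cartesian sum: the lower bound `max (χ(G), χ(H))` is optimal up to a constant

`MP_99abf8_co` notes that for the Cartesian sum `⊕` no lower bound stronger than
`χ(G ⊕ H) ≥ c max (χ(G), χ(H))` appears to be known. Here it is shown that there is none: for all
`s, t ≥ 1` there are graphs with `χ(G) = s`, `χ(H) = t` and `χ(G ⊕ H) ≤ 43 max (s, t)`, where `G`
depends only on `s` and has at most `4 ^ s` vertices, and likewise for `H`. The graphs are the shift
graphs.
-/

set_option autoImplicit false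

namespace Pool.Agent.Results.MP_99abf8_co.CartesianSumMax

open Pool.Agent.H829.GraphProducts

theorem result : ∃ F : ℕ → FGraph, (∀ s : ℕ, 0 < s → chi (F s) = s ∧ order (F s) ≤ 4 ^ s) ∧
    ∀ s t : ℕ, 0 < s → 0 < t → chi (csum (F s) (F t)) ≤ 43 * max s t := by
  refine ⟨fun s => shift (s - 1), fun s hs => ⟨?_, ?_⟩, fun s t hs ht => ?_⟩
  · show chi (shift (s - 1)) = s
    rw [chi_shift, Nat.sub_add_cancel hs]
  · have h := order_shift (s - 1)
    rw [Nat.sub_add_cancel hs] at h
    exact h
  · have h := csum_shift' (s - 1) (t - 1)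
    rw [Nat.sub_add_cancel hs, Nat.sub_add_cancel ht] at h
    exact h

end Pool.Agent.Results.MP_99abf8_co.CartesianSumMax
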