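import Mathlib

/-!
# Local graph products with arbitrary gadgets are not nearly multiplicative

A gadget product assigns to graphs `G`, `G'` with `n`, `n'` vertices a graph on
`A × V^k × V'^l`, where `A = A(n, n')` is an arbitrary finite set of labels (the vertices of a
gadget) and whether `(a, x, x')` and `(b, y, y')` are adjacent is decided by an arbitrary rule, which
may depend on `n`, `n'`, from `a`, `b` and the existence of `m` vertices `w` of `G` and `m'` vertices
`w'` of `G'` for which `x, y, w` and `x', y', w'` have given equalities and adjacencies.  If the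
chromatic number of the product is bounded by a function of `χ(G)` and `χ(G')`, for example by
`χ(G) χ(G')`, then for all large `h`, `h'` there are graphs with `χ(G) = h`, `χ(G') = h'` and
`χ(G * G') ≤ C max(h, h')`.

Outline of the proof.  `G`, `G'` are the shift graphs on the pairs of `2 ^ h` and `2 ^ h'` points.
1. (`amalgam`, `chain2`) Suppose that `x`, `y` have the same equalities and adjacencies inside, that
`x i = y j` only if `x i = x j`, and that `x i`, `y i` are never adjacent.  Then any given number of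
tuples can be amalgamated, together with the vertices `w`, so that any two of them look like `x`, `y`,
in a graph of bounded chromatic number which has as many vertices as `G`.
2. (`label_lemma`) Hence, for every such situation in `G` and `G'`, the labels can be coloured with
boundedly many colours such that labels of adjacent vertices have different colours.
3. (`hash_cover`) Few functions on the points are enough to be injective on the entries of any given
tuples; together with the values of such a function on the tuple and the colours of the labels they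
give a colouring with `O(h + h')` colours.
-/

namespace Pool.Agent.Results.MP_99abf8_co.GadgetProducts

/-- The pattern of a finite tuple: which entries are equal, which are adjacent. -/
def Pattern (ι : Type) : Type := (ι → ι → Prop) × (ι → ι → Prop)

/-- The pattern of the tuple `z` of vertices of `G`. -/
def pattern {V ι : Type} (G : SimpleGraph V) (z : ι → V) : Pattern ι :=
  (fun i j => z i = z j, fun i j => G.Adj (z i) (z j))

/-- A gadget product of dimensions `k`, `l` with `m`, `m'` witnesses: for all numbers `n`, `n'` a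
finite set of labels and a rule. -/
structure GadgetProduct (k l m m' : ℕ) where
  Label : ℕ → ℕ → Type
  finite_label : ∀ n n', Finite (Label n n')
  rule : ∀ n n', Label n n' → Label n n' → Pattern (Fin k ⊕ Fin k ⊕ Fin m) →
    Pattern (Fin l ⊕ Fin l ⊕ Fin m') → Prop

/-- The product of `G` and `G'`: its vertices are the `(a, x, x')`, `a` a label, `x` a `k`-tuple of
vertices of `G`, `x'` an `l`-tuple of vertices of `G'`; two different vertices `(a, x, x')`,
`(b, y, y')` are adjacent if there are an `m`-tuple `w` of vertices of `G` and an `m'`-tuple `w'` of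
vertices of `G'` such that the rule holds for `a`, `b` and the patterns of `(x, y, w)` in `G` and of
`(x', y', w')` in `G'`, or the same with `(a, x, x')` and `(b, y, y')` exchanged. -/
def GadgetProduct.graph {k l m m' : ℕ} (P : GadgetProduct k l m m') {V V' : Type}
    (G : SimpleGraph V) (G' : SimpleGraph V') :
    SimpleGraph (P.Label (Nat.card V) (Nat.card V') × (Fin k → V) × (Fin l → V')) :=
  SimpleGraph.fromRel fun u v => ∃ (w : Fin m → V) (w' : Fin m' → V'),
    P.rule (Nat.card V) (Nat.card V') u.1 v.1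
      (pattern G (Sum.elim u.2.1 (Sum.elim v.2.1 w)))
      (pattern G' (Sum.elim u.2.2 (Sum.elim v.2.2 w')))

/-- The chromatic number of the product is bounded by a function of the chromatic numbers of the
factors (finite graphs with at least one vertex). -/
def Bounded {k l m m' : ℕ} (P : GadgetProduct k l m m') : Prop :=
  ∃ f : ℕ → ℕ → ℕ, ∀ (V V' : Type) [Finite V] [Finite V'] [Nonempty V] [Nonempty V']
    (G : SimpleGraph V) (G' : SimpleGraph V') (r r' : ℕ), G.chromaticNumber = r →
      G'.chromaticNumber = r' → (P.graph G G').chromaticNumber ≤ f r r'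

/-- The product is `c`-multiplicative: `c χ(G) χ(G') ≤ χ(G * G') ≤ χ(G) χ(G')` for all finite graphs
with at least one vertex. -/
def Multiplicative {k l m m' : ℕ} (P : GadgetProduct k l m m') (c : ℝ) : Prop :=
  ∀ (V V' : Type) [Finite V] [Finite V'] [Nonempty V] [Nonempty V']
    (G : SimpleGraph V) (G' : SimpleGraph V') (r r' : ℕ), G.chromaticNumber = r →
      G'.chromaticNumber = r' → ∃ s : ℕ, (P.graph G G').chromaticNumber = s ∧
        c * r * r' ≤ s ∧ s ≤ r * r'

theorem exists_rep {V : Type} {k : ℕ} (x : Fin k → V) :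
    ∃ r : Fin k → Fin k, (∀ i, x (r i) = x i) ∧ ∀ i j, x i = x j → r i = r j := by
  classical
  have hex : ∀ i, ∃ j, x j = x i := fun i => ⟨i, rfl⟩
  refine ⟨fun i => Classical.choose (hex i), fun i => Classical.choose_spec (hex i), ?_⟩
  intro i j h
  have : (fun a => x a = x i) = (fun a => x a = x j) := by rw [h]
  simp only [this]

theorem amalgam {V : Type} (G : SimpleGraph V) {k : ℕ} (x y : Fin k → V)
    (hown : pattern G x = pattern G y)
    (hsh : ∀ i j, x i = y j → x i = x j)
    (hadj : ∀ i, ¬ G.Adj (x i) (y i)) (N r' : ℕ) (hcol : G.Colorable r') :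
    ∃ (H : SimpleGraph ((Fin k × Fin (N + 2)) ⊕ (V × Fin (N + 1) × Fin (N + 1))))
      (z : Fin (N + 1) → Fin k → (Fin k × Fin (N + 2)) ⊕ (V × Fin (N + 1) × Fin (N + 1))),
      H.Colorable (k + r') ∧
      (∀ s t, s < t → ∃ ε : G ↪g H, (fun i => ε (x i)) = z s ∧ (fun i => ε (y i)) = z t) ∧
      (x ≠ y → ∀ s t, z s = z t → s = t) := by
  classical
  obtain ⟨r, hr, hr'⟩ := exists_rep x
  have hE : ∀ i j, x i = x j ↔ y i = y j := fun i j => by
    have := congrFun (congrFun (congrArg Prod.fst hown) i) j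
    simpa [pattern] using this
  have hA : ∀ i j, G.Adj (x i) (x j) ↔ G.Adj (y i) (y j) := fun i j => by
    have := congrFun (congrFun (congrArg Prod.snd hown) i) j
    simpa [pattern] using this
  have hry : ∀ i, y (r i) = y i := fun i => (hE _ _).1 (hr i)
  have hrr : ∀ i j, r i = r j ↔ x i = x j :=
    fun i j => ⟨fun h => by rw [← hr i, ← hr j, h], hr' i j⟩
  let H0 : SimpleGraph (Fin k × Fin (N + 2)) :=
    { Adj := fun a b => (a.2 = b.2 ∧ G.Adj (x a.1) (x b.1)) ∨
        (a.2 < b.2 ∧ G.Adj (x a.1) (y b.1)) ∨ (b.2 < a.2 ∧ G.Adj (y a.1) (x b.1))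
      symm := ⟨by
        rintro a b (⟨h, h1⟩ | ⟨h, h1⟩ | ⟨h, h1⟩)
        · exact Or.inl ⟨h.symm, h1.symm⟩
        · exact Or.inr (Or.inr ⟨h, h1.symm⟩)
        · exact Or.inr (Or.inl ⟨h, h1.symm⟩)⟩
      loopless := ⟨by
        rintro a (⟨h, h1⟩ | ⟨h, h1⟩ | ⟨h, h1⟩)
        · exact G.loopless.irrefl _ h1
        · exact lt_irrefl _ h
        · exact lt_irrefl _ h⟩ }
  have H0adj : ∀ a b, H0.Adj a b ↔ ((a.2 = b.2 ∧ G.Adj (x a.1) (x b.1)) ∨
        (a.2 < b.2 ∧ G.Adj (x a.1) (y b.1)) ∨ (b.2 < a.2 ∧ G.Adj (y a.1) (x b.1))) :=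
    fun a b => Iff.rfl
  let w : Fin (N + 1) → Fin k → Fin k × Fin (N + 2) :=
    fun s i => (r i, if x i = y i then 0 else s.succ)
  have w1 : ∀ s i, x i = y i → w s i = (r i, 0) := fun s i h => by simp [w, h]
  have w2 : ∀ s i, x i ≠ y i → w s i = (r i, s.succ) := fun s i h => by simp [w, h]
  have E1 : ∀ s i j, w s i = w s j ↔ x i = x j := by
    intro s i j
    constructor
    · intro h
      exact (hrr i j).1 (congrArg Prod.fst h)
    · intro h
      have h' : y i = y j := (hE i j).1 h
      have hr2 := (hrr i j).2 h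
      simp only [w, h, h', hr2]
  have E2 : ∀ s t i j, s ≠ t → (w s i = w t j ↔ x i = y j) := by
    intro s t i j hst
    constructor
    · intro h
      have h1 : x i = x j := (hrr i j).1 (congrArg Prod.fst h)
      have h2 : y i = y j := (hE i j).1 h1
      by_cases hi : x i = y i
      · rw [hi, h2]
      · exfalso
        have hj : x j ≠ y j := by rw [← h1, ← h2]; exact hi
        rw [w2 s i hi, w2 t j hj] at h
        exact hst (Fin.succ_injective _ (congrArg Prod.snd h))
    · intro h
      have h1 : x i = x j := hsh i j h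
      have h2 : y i = y j := (hE i j).1 h1
      have hi : x i = y i := by rw [h, h2]
      have hj : x j = y j := by rw [← h1, h]
      rw [w1 s i hi, w1 t j hj, (hrr i j).2 h1]
  have A1 : ∀ s i j, H0.Adj (w s i) (w s j) ↔ G.Adj (x i) (x j) := by
    intro s i j
    by_cases hi : x i = y i <;> by_cases hj : x j = y j
    · rw [w1 s i hi, w1 s j hj, H0adj]
      simp [hr]
    · rw [w1 s i hi, w2 s j hj, H0adj]
      have : (0 : Fin (N + 2)) ≠ s.succ := (Fin.succ_ne_zero s).symm
      simp only [this, hr, hry, Fin.succ_pos, Fin.not_lt_zero, false_and, true_and, false_or,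
        or_false]
      rw [hi, ← hA, ← hi]
    · rw [w2 s i hi, w1 s j hj, H0adj]
      have : s.succ ≠ (0 : Fin (N + 2)) := (Fin.succ_ne_zero s)
      simp only [this, hr, hry, Fin.succ_pos, Fin.not_lt_zero, false_and, true_and, false_or]
      rw [hj, ← hA, ← hj]
    · rw [w2 s i hi, w2 s j hj, H0adj]
      simp [hr]
  have A2 : ∀ s t i j, s < t → (H0.Adj (w s i) (w t j) ↔ G.Adj (x i) (y j)) := by
    intro s t i j hst
    by_cases hi : x i = y i <;> by_cases hj : x j = y j
    · rw [w1 s i hi, w1 t j hj, H0adj]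
      simp [hr, hj]
    · rw [w1 s i hi, w2 t j hj, H0adj]
      have : (0 : Fin (N + 2)) ≠ t.succ := (Fin.succ_ne_zero t).symm
      simp only [this, hr, hry, Fin.succ_pos, Fin.not_lt_zero, false_and, true_and, false_or,
        or_false]
    · rw [w2 s i hi, w1 t j hj, H0adj]
      have : s.succ ≠ (0 : Fin (N + 2)) := (Fin.succ_ne_zero s)
      simp only [this, hr, hry, Fin.succ_pos, Fin.not_lt_zero, false_and, true_and, false_or]
      rw [hj, ← hA, ← hj]
    · rw [w2 s i hi, w2 t j hj, H0adj]
      have h1 : s.succ ≠ t.succ := fun h => hst.ne (Fin.succ_injective _ h)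
      have h2 : s.succ < t.succ := Fin.succ_lt_succ_iff.2 hst
      have h3 : ¬ t.succ < s.succ := not_lt.2 h2.le
      simp only [h1, h2, h3, hr, hry, false_and, true_and, false_or, or_false]
  have A3 : ∀ s t i j, s < t → (H0.Adj (w t i) (w s j) ↔ G.Adj (y i) (x j)) := by
    intro s t i j hst
    rw [H0.adj_comm, A2 s t j i hst, G.adj_comm]
  -- the amalgam
  let mixed : Fin k × Fin (N + 2) → V × Fin (N + 1) × Fin (N + 1) → Prop := fun a p =>
    (∃ i, a = w p.2.1 i ∧ G.Adj (x i) p.1) ∨ (∃ j, a = w p.2.2 j ∧ G.Adj (y j) p.1)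
  let H : SimpleGraph ((Fin k × Fin (N + 2)) ⊕ (V × Fin (N + 1) × Fin (N + 1))) :=
    { Adj := fun p p' => match p, p' with
        | Sum.inl a, Sum.inl b => H0.Adj a b
        | Sum.inl a, Sum.inr c => mixed a c
        | Sum.inr c, Sum.inl a => mixed a c
        | Sum.inr c, Sum.inr d => c.2 = d.2 ∧ G.Adj c.1 d.1
      symm := ⟨by
        rintro (a | c) (b | d) h
        · exact H0.symm.symm _ _ h
        · exact h
        · exact h
        · exact ⟨h.1.symm, h.2.symm⟩⟩
      loopless := ⟨by
        rintro (a | c) h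
        · exact H0.loopless.irrefl _ h
        · exact G.loopless.irrefl _ h.2⟩ }
  have Hll : ∀ a b, H.Adj (Sum.inl a) (Sum.inl b) ↔ H0.Adj a b := fun a b => Iff.rfl
  have Hlr : ∀ a c, H.Adj (Sum.inl a) (Sum.inr c) ↔ mixed a c := fun a c => Iff.rfl
  have Hrr : ∀ c d, H.Adj (Sum.inr c) (Sum.inr d) ↔ (c.2 = d.2 ∧ G.Adj c.1 d.1) :=
    fun c d => Iff.rfl
  refine ⟨H, fun s i => Sum.inl (w s i), ?_, ?_, ?_⟩
  · obtain ⟨c⟩ := hcol
    have hcc : H.Coloring (Fin k ⊕ Fin r') :=
      SimpleGraph.Coloring.mk (fun p => match p with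
        | Sum.inl a => Sum.inl a.1
        | Sum.inr d => Sum.inr (c d.1)) (by
        rintro (a | d) (b | d') hab h
        · rw [Hll, H0adj] at hab
          have h' : a.1 = b.1 := Sum.inl_injective h
          rw [← h'] at hab
          rcases hab with ⟨_, h1⟩ | ⟨_, h1⟩ | ⟨_, h1⟩
          · exact G.loopless.irrefl _ h1
          · exact hadj _ h1
          · exact hadj _ h1.symm
        · cases h
        · cases h
        · rw [Hrr] at hab
          exact c.valid hab.2 (Sum.inr_injective h))
    have h1 := hcc.colorable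
    simpa using h1
  · intro s t hst
    have hwy : ∀ j, (∃ i, x i = y j) → ∀ i, x i = y j → w s i = w t j :=
      fun j _ i h => (E2 s t i j hst.ne).2 h
    let ε : V → (Fin k × Fin (N + 2)) ⊕ (V × Fin (N + 1) × Fin (N + 1)) := fun v =>
      if h : ∃ i, x i = v then Sum.inl (w s h.choose)
      else if h' : ∃ j, y j = v then Sum.inl (w t h'.choose) else Sum.inr (v, s, t)
    have εx : ∀ i, ε (x i) = Sum.inl (w s i) := by
      intro i
      have h : ∃ i', x i' = x i := ⟨i, rfl⟩
      simp only [ε, dif_pos h]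
      rw [(E1 s _ i).2 h.choose_spec]
    have εy : ∀ j, ε (y j) = Sum.inl (w t j) := by
      intro j
      by_cases h : ∃ i, x i = y j
      · simp only [ε, dif_pos h]
        rw [(E2 s t _ j hst.ne).2 h.choose_spec]
      · have h' : ∃ j', y j' = y j := ⟨j, rfl⟩
        simp only [ε, dif_neg h, dif_pos h']
        rw [(E1 t _ j).2 ((hE _ _).2 h'.choose_spec)]
    have εp : ∀ v, (¬ ∃ i, x i = v) → (¬ ∃ j, y j = v) → ε v = Sum.inr (v, s, t) := by
      intro v h h'
      simp only [ε, dif_neg h, dif_neg h']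
    have tri : ∀ v, (∃ i, x i = v) ∨ (∃ j, y j = v) ∨ ((¬ ∃ i, x i = v) ∧ (¬ ∃ j, y j = v)) := by
      intro v
      by_cases h : ∃ i, x i = v
      · exact Or.inl h
      · by_cases h' : ∃ j, y j = v
        · exact Or.inr (Or.inl h')
        · exact Or.inr (Or.inr ⟨h, h'⟩)
    have mx : ∀ i v, mixed (w s i) (v, s, t) ↔ G.Adj (x i) v := by
      intro i v
      constructor
      · rintro (⟨i', h1, h2⟩ | ⟨j, h1, h2⟩)
        · rw [(E1 s i i').1 h1]; exact h2
        · rw [(E2 s t i j hst.ne).1 h1]; exact h2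
      · intro h
        exact Or.inl ⟨i, rfl, h⟩
    have my : ∀ j v, mixed (w t j) (v, s, t) ↔ G.Adj (y j) v := by
      intro j v
      constructor
      · rintro (⟨i', h1, h2⟩ | ⟨j', h1, h2⟩)
        · rw [← (E2 s t i' j hst.ne).1 h1.symm]; exact h2
        · rw [(hE j j').1 ((E1 t j j').1 h1)]; exact h2
      · intro h
        exact Or.inr ⟨j, rfl, h⟩
    have hinj : Function.Injective ε := by
      intro v v' h
      rcases tri v with ⟨i, rfl⟩ | ⟨j, rfl⟩ | ⟨h1, h2⟩ <;>
      rcases tri v' with ⟨i', rfl⟩ | ⟨j', rfl⟩ | ⟨h1', h2'⟩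
      · rw [εx, εx] at h
        exact (E1 s i i').1 (Sum.inl_injective h)
      · rw [εx, εy] at h
        exact (E2 s t i j' hst.ne).1 (Sum.inl_injective h)
      · rw [εx, εp v' h1' h2'] at h
        cases h
      · rw [εy, εx] at h
        exact ((E2 s t i' j hst.ne).1 (Sum.inl_injective h.symm)).symm
      · rw [εy, εy] at h
        exact (hE j j').1 ((E1 t j j').1 (Sum.inl_injective h))
      · rw [εy, εp v' h1' h2'] at h
        cases h
      · rw [εx, εp v h1 h2] at h
        cases h
      · rw [εy, εp v h1 h2] at h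
        cases h
      · rw [εp v h1 h2, εp v' h1' h2'] at h
        exact congrArg Prod.fst (Sum.inr_injective h)
    have hadjε : ∀ v v', H.Adj (ε v) (ε v') ↔ G.Adj v v' := by
      intro v v'
      rcases tri v with ⟨i, rfl⟩ | ⟨j, rfl⟩ | ⟨h1, h2⟩ <;>
      rcases tri v' with ⟨i', rfl⟩ | ⟨j', rfl⟩ | ⟨h1', h2'⟩
      · rw [εx, εx, Hll]
        exact A1 s i i'
      · rw [εx, εy, Hll]
        exact A2 s t i j' hst
      · rw [εx, εp v' h1' h2', Hlr]
        exact mx i v'
      · rw [εy, εx, Hll]
        exact A3 s t j i' hst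
      · rw [εy, εy, Hll]
        exact (A1 t j j').trans (hA j j')
      · rw [εy, εp v' h1' h2', Hlr]
        exact my j v'
      · rw [H.adj_comm, G.adj_comm, εx, εp v h1 h2, Hlr]
        exact mx i' v
      · rw [H.adj_comm, G.adj_comm, εy, εp v h1 h2, Hlr]
        exact my j' v
      · rw [εp v h1 h2, εp v' h1' h2', Hrr]
        simp
    refine ⟨⟨⟨ε, hinj⟩, fun {v v'} => hadjε v v'⟩, ?_, ?_⟩
    · funext i
      exact εx i
    · funext j
      exact εy j
  · intro hxy s t hst
    obtain ⟨i, hi⟩ : ∃ i, x i ≠ y i := by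
      by_contra hcon
      push Not at hcon
      exact hxy (funext hcon)
    have := Sum.inl_injective (congrFun hst i)
    rw [w2 s i hi, w2 t i hi] at this
    exact Fin.succ_injective _ (congrArg Prod.snd this)

theorem pattern_emb {V W ι : Type} {G : SimpleGraph V} {H : SimpleGraph W} (φ : G ↪g H)
    (p : ι → V) : pattern H (fun i => φ (p i)) = pattern G p := by
  unfold pattern
  refine Prod.ext ?_ ?_
  · funext i j
    exact propext φ.injective.eq_iff
  · funext i j
    exact propext φ.map_rel_iff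

theorem map_colorable {W U : Type} (H : SimpleGraph W) (e : W ↪ U) {r : ℕ} (hc : H.Colorable r) :
    (H.map e).Colorable (r + 1) := by
  classical
  obtain ⟨c⟩ := hc
  refine ⟨SimpleGraph.Coloring.mk
    (fun u => if h : ∃ a, e a = u then (c h.choose).castSucc else Fin.last r) ?_⟩
  intro u v huv
  rw [SimpleGraph.map_adj] at huv
  obtain ⟨a, b, hab, rfl, rfl⟩ := huv
  have ha : ∃ a', e a' = e a := ⟨a, rfl⟩
  have hb : ∃ b', e b' = e b := ⟨b, rfl⟩
  have ha' : ha.choose = a := e.injective ha.choose_spec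
  have hb' : hb.choose = b := e.injective hb.choose_spec
  rw [dif_pos ha, dif_pos hb, ha', hb']
  intro h
  exact c.valid hab (Fin.castSucc_injective _ h)

theorem chain2 {V : Type} (G : SimpleGraph V) {k m : ℕ} (x y : Fin k → V) (w : Fin m → V)
    (hown : pattern G x = pattern G y)
    (hsh : ∀ i j, x i = y j → x i = x j)
    (hadj : ∀ i, ¬ G.Adj (x i) (y i)) (N : ℕ) {U : Type} [Finite U]
    (hcard : k * (N + 2) + (k + (k + m)) * ((N + 1) * (N + 1)) ≤ Nat.card U) :
    ∃ (H : SimpleGraph U) (z : Fin (N + 1) → Fin k → U), H.Colorable (k + (k + (k + m)) + 1) ∧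
      (∀ s t, s < t → ∃ ww : Fin m → U,
        pattern H (Sum.elim (z s) (Sum.elim (z t) ww)) =
          pattern G (Sum.elim x (Sum.elim y w))) ∧
      (x ≠ y → ∀ s t, z s = z t → s = t) := by
  classical
  let p : Fin k ⊕ Fin k ⊕ Fin m → V := Sum.elim x (Sum.elim y w)
  let S := Set.range p
  let G0 : SimpleGraph S := G.comap (fun v : S => (v : V))
  let φ0 : G0 ↪g G := SimpleGraph.Embedding.comap (Function.Embedding.subtype _) G
  let x0 : Fin k → S := fun i => ⟨x i, ⟨Sum.inl i, rfl⟩⟩
  let y0 : Fin k → S := fun i => ⟨y i, ⟨Sum.inr (Sum.inl i), rfl⟩⟩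
  let w0 : Fin m → S := fun i => ⟨w i, ⟨Sum.inr (Sum.inr i), rfl⟩⟩
  have hSc : Nat.card S ≤ k + (k + m) := by
    have := Finite.card_range_le p
    simpa using this
  have hx0 : pattern G0 x0 = pattern G x := (pattern_emb φ0 x0).symm
  have hy0 : pattern G0 y0 = pattern G y := (pattern_emb φ0 y0).symm
  have : Fintype S := Fintype.ofFinite S
  have hSc' : Fintype.card S ≤ k + (k + m) := by rw [← Nat.card_eq_fintype_card]; exact hSc
  have hcol : G0.Colorable (k + (k + m)) := (G0.colorable_of_fintype).mono hSc'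
  obtain ⟨H0, z0, hH0, hz0, hi0⟩ := amalgam G0 x0 y0 (by rw [hx0, hy0, hown])
    (fun i j hij => Subtype.ext (hsh i j (congrArg Subtype.val hij)))
    (fun i hij => hadj i hij) N _ hcol
  have : Fintype U := Fintype.ofFinite U
  obtain ⟨e⟩ : Nonempty (((Fin k × Fin (N + 2)) ⊕ (S × Fin (N + 1) × Fin (N + 1))) ↪ U) := by
    apply Function.Embedding.nonempty_of_card_le
    rw [← Nat.card_eq_fintype_card (α := U)]
    refine le_trans ?_ hcard
    simp only [Fintype.card_sum, Fintype.card_prod, Fintype.card_fin]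
    exact Nat.add_le_add_left (Nat.mul_le_mul_right _ hSc') _
  refine ⟨H0.map e, fun s i => e (z0 s i), map_colorable H0 e hH0, ?_, ?_⟩
  · intro s t hst
    obtain ⟨ε, h1, h2⟩ := hz0 s t hst
    let φ : G0 ↪g H0.map e := (SimpleGraph.Embedding.map e H0).comp ε
    refine ⟨fun i => φ (w0 i), ?_⟩
    have h3 : (Sum.elim (fun i => e (z0 s i)) (Sum.elim (fun i => e (z0 t i))
        (fun i => φ (w0 i)))) = fun i => φ ((Sum.elim x0 (Sum.elim y0 w0)) i) := by
      funext i
      rcases i with i | i | i
      · simp only [Sum.elim_inl]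
        rw [← h1]
        rfl
      · simp only [Sum.elim_inl, Sum.elim_inr]
        rw [← h2]
        rfl
      · rfl
    rw [h3, pattern_emb φ]
    have h4 : (Sum.elim x (Sum.elim y w)) = fun i => φ0 ((Sum.elim x0 (Sum.elim y0 w0)) i) := by
      funext i
      rcases i with i | i | i <;> rfl
    rw [h4, pattern_emb φ0]
  · intro hxy s t hst
    apply hi0
    · intro h
      apply hxy
      funext i
      exact congrArg Subtype.val (congrFun h i)
    · funext i
      exact e.injective (congrFun hst i)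

theorem label_lemma {A : Type} [Finite A] (Q : A → A → Prop) (F : ℕ)
    (hQ : ∀ s : A → Fin (F * F + 1), ∃ κ : A → Fin F, ∀ a b, Q a b → s a < s b → κ a ≠ κ b) :
    ∃ c : A → Fin (F * F), ∀ a b, a ≠ b → Q a b → c a ≠ c b := by
  classical
  have : Fintype A := Fintype.ofFinite A
  have key : ∀ S : Finset A, ∃ c : A → Fin (F * F), ∀ a ∈ S, ∀ b ∈ S, a ≠ b → Q a b →
      c a ≠ c b := by
    intro S
    induction S using Finset.induction_on with
    | empty =>
      obtain ⟨κ, -⟩ := hQ (fun _ => 0)
      exact ⟨fun a => finProdFinEquiv (κ a, κ a), by simp⟩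
    | insert a0 S ha0 ih =>
      obtain ⟨c, hc⟩ := ih
      let s : A → Fin (F * F + 1) := fun a => if a = a0 then Fin.last _ else (c a).castSucc
      have hs : ∀ a ∈ insert a0 S, ∀ b ∈ insert a0 S, a ≠ b → Q a b → s a ≠ s b := by
        intro a ha b hb hab hQab
        by_cases h1 : a = a0
        · have h2 : b ≠ a0 := fun h => hab (h1.trans h.symm)
          simp only [s, if_pos h1, if_neg h2]
          exact (Fin.castSucc_ne_last _).symm
        · by_cases h2 : b = a0
          · simp only [s, if_neg h1, if_pos h2]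
            exact Fin.castSucc_ne_last _
          · simp only [s, if_neg h1, if_neg h2]
            have ha' : a ∈ S := (Finset.mem_insert.1 ha).resolve_left h1
            have hb' : b ∈ S := (Finset.mem_insert.1 hb).resolve_left h2
            intro h
            exact hc a ha' b hb' hab hQab (Fin.castSucc_injective _ h)
      obtain ⟨κ, hκ⟩ := hQ s
      obtain ⟨κ', hκ'⟩ := hQ (fun a => (s a).rev)
      refine ⟨fun a => finProdFinEquiv (κ a, κ' a), ?_⟩
      intro a ha b hb hab hQab h
      have h3 := finProdFinEquiv.injective h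
      have h4 : κ a = κ b := congrArg Prod.fst h3
      have h5 : κ' a = κ' b := congrArg Prod.snd h3
      rcases lt_trichotomy (s a) (s b) with h6 | h6 | h6
      · exact hκ a b hQab h6 h4
      · exact hs a ha b hb hab hQab h6
      · exact hκ' a b hQab (Fin.rev_lt_rev.2 h6) h5
  obtain ⟨c, hc⟩ := key Finset.univ
  exact ⟨c, fun a b hab hQab => hc a (Finset.mem_univ _) b (Finset.mem_univ _) hab hQab⟩

theorem cover_aux {Ω Z : Type} [Fintype Ω] [Nonempty Ω] (good : Ω → Z → Prop)
    [∀ ω z, Decidable (good ω z)] (D : ℕ)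
    (h : ∀ z, Fintype.card Ω ≤ D * (Finset.univ.filter (fun ω => good ω z)).card) :
    ∀ (m : ℕ) (S : Finset Z), S.card * (D - 1) ^ m < D ^ m →
      ∃ f : Fin m → Ω, ∀ z ∈ S, ∃ i, good (f i) z := by
  classical
  intro m
  induction m with
  | zero =>
    intro S hS
    have : S = ∅ := by
      rw [← Finset.card_eq_zero]
      simp at hS
      simpa using hS
    subst this
    exact ⟨fun i => i.elim0, fun z hz => by simp at hz⟩
  | succ m ih =>
    intro S hS
    -- averaging
    obtain ⟨ω, hω⟩ : ∃ ω : Ω, S.card ≤ D * (S.filter (fun z => good ω z)).card := by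
      by_contra hcon
      push Not at hcon
      have h1 : ∑ ω : Ω, D * (S.filter (fun z => good ω z)).card < ∑ _ω : Ω, S.card := by
        apply Finset.sum_lt_sum_of_nonempty Finset.univ_nonempty
        intro ω _
        exact hcon ω
      have h2 : ∑ ω : Ω, (S.filter (fun z => good ω z)).card =
          ∑ z ∈ S, (Finset.univ.filter (fun ω => good ω z)).card := by
        simp only [Finset.card_filter]
        rw [Finset.sum_comm]
      rw [← Finset.mul_sum, h2, Finset.mul_sum, Finset.sum_const, smul_eq_mul,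
        Finset.card_univ] at h1
      have h3 : ∑ _z ∈ S, Fintype.card Ω ≤
          ∑ z ∈ S, D * (Finset.univ.filter (fun ω => good ω z)).card :=
        Finset.sum_le_sum (fun z _ => h z)
      rw [Finset.sum_const, smul_eq_mul] at h3
      nlinarith
    have hD : 0 < D := by
      rcases Nat.eq_zero_or_pos D with h0 | h0
      · subst h0
        simp at hS
      · exact h0
    have hsplit : (S.filter (fun z => good ω z)).card + (S.filter (fun z => ¬ good ω z)).card
        = S.card := Finset.card_filter_add_card_filter_not (s := S) (fun z => good ω z)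
    have hS' : (S.filter (fun z => ¬ good ω z)).card * (D - 1) ^ m < D ^ m := by
      have h4 : D * (S.filter (fun z => ¬ good ω z)).card ≤ (D - 1) * S.card := by
        obtain ⟨d, rfl⟩ : ∃ d, D = d + 1 := ⟨D - 1, by omega⟩
        simp only [Nat.add_sub_cancel]
        nlinarith
      have h5 : D * ((S.filter (fun z => ¬ good ω z)).card * (D - 1) ^ m) < D * D ^ m := by
        calc D * ((S.filter (fun z => ¬ good ω z)).card * (D - 1) ^ m)
            = (D * (S.filter (fun z => ¬ good ω z)).card) * (D - 1) ^ m := by ring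
          _ ≤ ((D - 1) * S.card) * (D - 1) ^ m := Nat.mul_le_mul_right _ h4
          _ = S.card * (D - 1) ^ (m + 1) := by ring
          _ < D ^ (m + 1) := hS
          _ = D * D ^ m := by ring
      exact lt_of_mul_lt_mul_left h5 (Nat.zero_le _)
    obtain ⟨f, hf⟩ := ih _ hS'
    refine ⟨Fin.cons ω f, ?_⟩
    intro z hz
    by_cases hg : good ω z
    · exact ⟨0, by simpa using hg⟩
    · obtain ⟨i, hi⟩ := hf z (Finset.mem_filter.2 ⟨hz, hg⟩)
      exact ⟨i.succ, by simpa using hi⟩

theorem pow_aux (d : ℕ) : ∀ n : ℕ, (d + n) * d ^ n ≤ d * (d + 1) ^ n := by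
  intro n
  induction n with
  | zero => simp
  | succ n ih =>
    have h1 : d * (d + (n + 1)) ≤ (d + 1) * (d + n) := by nlinarith
    calc (d + (n + 1)) * d ^ (n + 1) = (d * (d + (n + 1))) * d ^ n := by ring
      _ ≤ ((d + 1) * (d + n)) * d ^ n := Nat.mul_le_mul_right _ h1
      _ = (d + 1) * ((d + n) * d ^ n) := by ring
      _ ≤ (d + 1) * (d * (d + 1) ^ n) := Nat.mul_le_mul_left _ ih
      _ = d * (d + 1) ^ (n + 1) := by ring

theorem two_pow_aux (D : ℕ) (hD : 0 < D) : 2 * (D - 1) ^ D ≤ D ^ D := by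
  obtain ⟨d, rfl⟩ : ∃ d, D = d + 1 := ⟨D - 1, by omega⟩
  simp only [Nat.add_sub_cancel]
  rcases Nat.eq_zero_or_pos d with h0 | h0
  · subst h0; simp
  · have h := pow_aux d (d + 1)
    have h2 : d * (2 * d ^ (d + 1)) ≤ d * (d + 1) ^ (d + 1) := by
      refine le_trans ?_ h
      have : d * (2 * d ^ (d + 1)) = (2 * d) * d ^ (d + 1) := by ring
      rw [this]
      exact Nat.mul_le_mul_right _ (by omega)
    exact Nat.le_of_mul_le_mul_left h2 h0

theorem pow_ineq (D s : ℕ) (hD : 0 < D) :
    2 ^ s * (D - 1) ^ (D * (s + 1)) < D ^ (D * (s + 1)) := by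
  have h1 : (2 * (D - 1) ^ D) ^ (s + 1) ≤ (D ^ D) ^ (s + 1) :=
    Nat.pow_le_pow_left (two_pow_aux D hD) _
  rw [mul_pow, ← pow_mul, ← pow_mul] at h1
  rcases Nat.eq_zero_or_pos ((D - 1) ^ (D * (s + 1))) with h0 | h0
  · rw [h0, mul_zero]
    exact pow_pos hD _
  · refine lt_of_lt_of_le ?_ h1
    apply Nat.mul_lt_mul_of_pos_right _ h0
    exact Nat.pow_lt_pow_right (by norm_num) (Nat.lt_succ_self s)

/-- `ρ` is injective on the entries of `z` -/
def HGood {T : Type} {n : ℕ} (ρ : Fin n → Option T) (z : T → Fin n) : Prop :=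
  ∀ a b, ρ (z a) = ρ (z b) → z a = z b

open Classical in
theorem hash_count {T : Type} [Fintype T] {n : ℕ} (z : T → Fin n) :
    Fintype.card (Fin n → Option T) ≤
      Fintype.card (T → Option T) * (Finset.univ.filter (fun ρ => HGood ρ z)).card := by
  have hg : ∀ ρ : Fin n → Option T, HGood (fun v => if h : ∃ a, z a = v then some h.choose else ρ v) z := by
    intro ρ a b hab
    have ha : ∃ a', z a' = z a := ⟨a, rfl⟩
    have hb : ∃ b', z b' = z b := ⟨b, rfl⟩
    simp only [dif_pos ha, dif_pos hb] at hab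
    have h := Option.some_injective _ hab
    rw [← ha.choose_spec, ← hb.choose_spec, h]
  let Φ : (Fin n → Option T) → (T → Option T) × {ρ : Fin n → Option T // HGood ρ z} :=
    fun ρ => (ρ ∘ z, ⟨_, hg ρ⟩)
  have hΦ : Function.Injective Φ := by
    intro ρ ρ' h
    have h1 : ρ ∘ z = ρ' ∘ z := congrArg Prod.fst h
    have h2 := congrArg Subtype.val (congrArg Prod.snd h)
    funext v
    by_cases hv : ∃ a, z a = v
    · obtain ⟨a, rfl⟩ := hv
      exact congrFun h1 a
    · have := congrFun h2 v
      simpa only [Φ, dif_neg hv] using this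
  have := Fintype.card_le_of_injective Φ hΦ
  rw [Fintype.card_prod, Fintype.card_subtype] at this
  exact this

open Classical in
theorem hash_cover (T T' : Type) [Fintype T] [Fintype T'] (h h' : ℕ) :
    ∃ f : Fin ((Fintype.card (T → Option T) * Fintype.card (T' → Option T')) *
        ((h * Fintype.card T + h' * Fintype.card T') + 1)) →
        (Fin (2 ^ h) → Option T) × (Fin (2 ^ h') → Option T'),
      ∀ (z : T → Fin (2 ^ h)) (z' : T' → Fin (2 ^ h')), ∃ i, HGood (f i).1 z ∧ HGood (f i).2 z' := by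
  set D := Fintype.card (T → Option T) * Fintype.card (T' → Option T') with hDdef
  have hD : 0 < D := Nat.mul_pos Fintype.card_pos Fintype.card_pos
  have hcount : ∀ z : (T → Fin (2 ^ h)) × (T' → Fin (2 ^ h')),
      Fintype.card ((Fin (2 ^ h) → Option T) × (Fin (2 ^ h') → Option T')) ≤
      D * (Finset.univ.filter (fun ω : (Fin (2 ^ h) → Option T) × (Fin (2 ^ h') → Option T') =>
        HGood ω.1 z.1 ∧ HGood ω.2 z.2)).card := by
    intro z
    have e1 := hash_count z.1
    have e2 := hash_count z.2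
    have e3 : (Finset.univ.filter (fun ω : (Fin (2 ^ h) → Option T) × (Fin (2 ^ h') → Option T') =>
        HGood ω.1 z.1 ∧ HGood ω.2 z.2)) =
        (Finset.univ.filter (fun ρ => HGood ρ z.1)) ×ˢ
          (Finset.univ.filter (fun ρ => HGood ρ z.2)) := by
      ext ω
      simp
    rw [e3, Finset.card_product, Fintype.card_prod]
    calc _ ≤ (Fintype.card (T → Option T) * (Finset.univ.filter (fun ρ => HGood ρ z.1)).card) *
          (Fintype.card (T' → Option T') * (Finset.univ.filter (fun ρ => HGood ρ z.2)).card) :=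
          Nat.mul_le_mul e1 e2
      _ = _ := by rw [hDdef]; ring
  have hcard : (Finset.univ : Finset ((T → Fin (2 ^ h)) × (T' → Fin (2 ^ h')))).card =
      2 ^ (h * Fintype.card T + h' * Fintype.card T') := by
    rw [Finset.card_univ, Fintype.card_prod, Fintype.card_fun, Fintype.card_fun,
      Fintype.card_fin, Fintype.card_fin, ← pow_mul, ← pow_mul, ← pow_add]
  obtain ⟨f, hf⟩ := cover_aux
    (Ω := (Fin (2 ^ h) → Option T) × (Fin (2 ^ h') → Option T'))
    (Z := (T → Fin (2 ^ h)) × (T' → Fin (2 ^ h')))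
    (fun ω z => HGood ω.1 z.1 ∧ HGood ω.2 z.2) D hcount
    (D * ((h * Fintype.card T + h' * Fintype.card T') + 1)) Finset.univ
    (by rw [hcard]; exact pow_ineq D _ hD)
  exact ⟨f, fun z z' => hf (z, z') (Finset.mem_univ _)⟩



theorem hash_cover' (T T' : Type) [Finite T] [Finite T'] : ∃ C : ℕ, ∀ h h' : ℕ,
    ∃ m : ℕ, m ≤ C * (h + h' + 1) ∧
    ∃ f : Fin m → (Fin (2 ^ h) → Option T) × (Fin (2 ^ h') → Option T'),
      ∀ (z : T → Fin (2 ^ h)) (z' : T' → Fin (2 ^ h')),
        ∃ i, HGood (f i).1 z ∧ HGood (f i).2 z' := by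
  classical
  have := Fintype.ofFinite T
  have := Fintype.ofFinite T'
  refine ⟨(Fintype.card (T → Option T) * Fintype.card (T' → Option T')) *
    (Fintype.card T + Fintype.card T' + 1), fun h h' => ?_⟩
  refine ⟨(Fintype.card (T → Option T) * Fintype.card (T' → Option T')) *
        ((h * Fintype.card T + h' * Fintype.card T') + 1), ?_, hash_cover T T' h h'⟩
  have h8 : h * Fintype.card T + h' * Fintype.card T' + 1 ≤
      (Fintype.card T + Fintype.card T' + 1) * (h + h' + 1) := by
    nlinarith [Nat.zero_le (h * Fintype.card T'), Nat.zero_le (h' * Fintype.card T),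
      Nat.zero_le (Fintype.card T), Nat.zero_le (Fintype.card T')]
  calc _ ≤ (Fintype.card (T → Option T) * Fintype.card (T' → Option T')) *
      ((Fintype.card T + Fintype.card T' + 1) * (h + h' + 1)) := Nat.mul_le_mul_left _ h8
    _ = _ := by ring

/-- vertices of the shift graph: pairs `i < j` -/
def ShiftV (n : ℕ) : Type := {p : Fin n × Fin n // p.1 < p.2}

noncomputable instance (n : ℕ) : Fintype (ShiftV n) := by
  classical
  exact (inferInstance : Fintype {p : Fin n × Fin n // p.1 < p.2})

/-- the shift graph -/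
def shift (n : ℕ) : SimpleGraph (ShiftV n) where
  Adj p q := p.1.2 = q.1.1 ∨ q.1.2 = p.1.1
  symm := ⟨fun _ _ h => h.symm⟩
  loopless := ⟨fun p h => by
    rcases h with h | h
    · exact absurd p.2 (by rw [h]; exact lt_irrefl _)
    · exact absurd p.2 (by rw [h]; exact lt_irrefl _)⟩

theorem shift_lower {n m : ℕ} (hc : (shift n).Colorable m) : n ≤ 2 ^ m := by
  classical
  obtain ⟨c⟩ := hc
  let S : Fin n → Finset (Fin m) := fun i =>
    Finset.univ.filter (fun a => ∃ (j : Fin n) (h : i < j), c ⟨(i, j), h⟩ = a)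
  have hS : ∀ i j : Fin n, i < j → S i ≠ S j := by
    intro i j hij he
    have h1 : c ⟨(i, j), hij⟩ ∈ S i := by
      simp only [S, Finset.mem_filter, Finset.mem_univ, true_and]
      exact ⟨j, hij, rfl⟩
    rw [he] at h1
    simp only [S, Finset.mem_filter, Finset.mem_univ, true_and] at h1
    obtain ⟨l, hl, hcl⟩ := h1
    have hadj : (shift n).Adj ⟨(i, j), hij⟩ ⟨(j, l), hl⟩ := Or.inl rfl
    exact c.valid hadj hcl.symm
  have hinj : Function.Injective S := by
    intro i j h
    rcases lt_trichotomy i j with h1 | h1 | h1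
    · exact absurd h (hS i j h1)
    · exact h1
    · exact absurd h.symm (hS j i h1)
  have := Fintype.card_le_of_injective S hinj
  simpa using this

theorem exists_bit {h i j : ℕ} (hij : i < j) (hj : j < 2 ^ h) :
    ∃ b : Fin h, i.testBit b = false ∧ j.testBit b = true := by
  by_contra hcon
  push Not at hcon
  have h1 : ∀ b, j.testBit b = true → i.testBit b = true := by
    intro b hb
    by_cases hbh : b < h
    · by_contra hi
      exact hcon ⟨b, hbh⟩ (by simpa using hi) hb
    · exfalso
      have : j < 2 ^ b := lt_of_lt_of_le hj (Nat.pow_le_pow_right (by norm_num) (not_lt.1 hbh))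
      rw [Nat.testBit_lt_two_pow this] at hb
      exact absurd hb (by simp)
  have h2 : j &&& i = j := by
    apply Nat.eq_of_testBit_eq
    intro b
    rw [Nat.testBit_and]
    cases hb : j.testBit b with
    | false => simp
    | true => simp [h1 b hb]
  have h3 : j &&& i ≤ i := Nat.and_le_right
  omega

theorem shift_upper (h : ℕ) : (shift (2 ^ h)).Colorable h := by
  classical
  have hex : ∀ p : ShiftV (2 ^ h), ∃ b : Fin h,
      (p.1.1 : ℕ).testBit b = false ∧ (p.1.2 : ℕ).testBit b = true :=
    fun p => exists_bit p.2 p.1.2.2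
  choose b hb using hex
  refine ⟨SimpleGraph.Coloring.mk b ?_⟩
  intro p q hpq he
  have h1 := hb p
  have h2 := hb q
  rw [← he] at h2
  rcases hpq with h3 | h3
  · rw [h3] at h1
    rw [h1.2] at h2
    exact absurd h2.1 (by simp)
  · rw [h3] at h2
    rw [h1.1] at h2
    exact absurd h2.2 (by simp)

theorem shift_chromatic (h : ℕ) : (shift (2 ^ h)).chromaticNumber = h := by
  apply le_antisymm
  · exact (shift_upper h).chromaticNumber_le
  · by_contra hcon
    push Not at hcon
    obtain ⟨m, hm⟩ := ENat.ne_top_iff_exists.1 (ne_top_of_lt hcon)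
    have hcm : (shift (2 ^ h)).Colorable m := by
      rw [← SimpleGraph.chromaticNumber_le_iff_colorable, ← hm]
    have h1 := shift_lower hcm
    have h2 : h ≤ m := (Nat.pow_le_pow_iff_right (by norm_num)).1 h1
    rw [← hm] at hcon
    have : m < h := by exact_mod_cast hcon
    omega

instance (h : ℕ) : Nonempty (ShiftV (2 ^ (h + 1))) :=
  ⟨⟨(⟨0, by positivity⟩, ⟨1, by rw [pow_succ]; have := Nat.one_le_two_pow (n := h); omega⟩),
    by simp [Fin.lt_def]⟩⟩

/-- many vertices -/
theorem shift_card (n : ℕ) : n ≤ Fintype.card (ShiftV (n + 1)) := by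
  have hinj : Function.Injective (fun i : Fin n => (⟨(0, i.succ), Fin.succ_pos i⟩ : ShiftV (n + 1))) := by
    intro i j h
    have := congrArg (fun p : ShiftV (n + 1) => p.1.2) h
    exact Fin.succ_injective _ this
  have := Fintype.card_le_of_injective _ hinj
  rw [Fintype.card_fin] at this
  exact this


/-- the indices of the entries of a tuple of vertices of the shift graph -/
def idx {n k : ℕ} (x : Fin k → ShiftV n) : Fin k ⊕ Fin k → Fin n :=
  Sum.elim (fun i => (x i).1.1) (fun i => (x i).1.2)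

theorem hash_sh {n k : ℕ} (x y : Fin k → ShiftV n) (ρ : Fin n → Option (Fin k ⊕ Fin k))
    (hx : HGood ρ (idx x)) (hxy : ρ ∘ idx x = ρ ∘ idx y) :
    (∀ i j, x i = y j → x i = x j) ∧ ∀ i, ¬ (shift n).Adj (x i) (y i) := by
  have key : ∀ a b, idx x a = idx y b → idx x a = idx x b := by
    intro a b hab
    apply hx
    rw [hab]
    exact (congrFun hxy b).symm
  constructor
  · intro i j hij
    have h1 := key (Sum.inl i) (Sum.inl j) (by simp [idx, hij])
    have h2 := key (Sum.inr i) (Sum.inr j) (by simp [idx, hij])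
    simp only [idx, Sum.elim_inl] at h1
    simp only [idx, Sum.elim_inr] at h2
    exact Subtype.ext (Prod.ext h1 h2)
  · intro i hadj
    rcases hadj with h | h
    · have := key (Sum.inr i) (Sum.inl i) (by simpa [idx] using h)
      simp only [idx, Sum.elim_inl, Sum.elim_inr] at this
      exact absurd (x i).2 (by rw [this]; exact lt_irrefl _)
    · have := key (Sum.inl i) (Sum.inr i) (by simpa [idx] using h.symm)
      simp only [idx, Sum.elim_inl, Sum.elim_inr] at this
      exact absurd (x i).2 (by rw [this]; exact lt_irrefl _)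

noncomputable instance (ι : Type) [Finite ι] : Finite (Pattern ι) := by
  unfold Pattern
  infer_instance

theorem color_shift (k l m m' F : ℕ) : ∃ C : ℕ, ∀ (P : GadgetProduct k l m m') (h h' : ℕ),
    k * (F * F + 2) + (k + (k + m)) * ((F * F + 1) * (F * F + 1)) ≤
      Nat.card (ShiftV (2 ^ h)) →
    l * (F * F + 2) + (l + (l + m')) * ((F * F + 1) * (F * F + 1)) ≤
      Nat.card (ShiftV (2 ^ h')) →
    (∀ (H : SimpleGraph (ShiftV (2 ^ h))) (H' : SimpleGraph (ShiftV (2 ^ h'))),
      H.Colorable (k + (k + (k + m)) + 1) → H'.Colorable (l + (l + (l + m')) + 1) →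
        (P.graph H H').Colorable F) →
    (P.graph (shift (2 ^ h)) (shift (2 ^ h'))).Colorable (C * (h + h' + 1)) := by
  classical
  let T := Fin k ⊕ Fin k
  let T' := Fin l ⊕ Fin l
  let Pi := Pattern (Fin k ⊕ Fin k ⊕ Fin m) × Pattern (Fin l ⊕ Fin l ⊕ Fin m')
  obtain ⟨C, hC⟩ := hash_cover' T T'
  let K := Nat.card (Pattern (Fin k) × Pattern (Fin l) × (T → Option T) × (T' → Option T') ×
    (Pi → Fin (F * F + 1)))
  refine ⟨K * C, ?_⟩
  intro P h h' hV hV' hB
  obtain ⟨M, hM, f, hf⟩ := hC h h'
  choose g hg using hf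
  -- colours of the labels
  let A := P.Label (Nat.card (ShiftV (2 ^ h))) (Nat.card (ShiftV (2 ^ h')))
  have hA : Finite A := P.finite_label _ _
  let Q : Pi → A → A → Prop := fun π a b =>
    P.rule (Nat.card (ShiftV (2 ^ h))) (Nat.card (ShiftV (2 ^ h'))) a b π.1 π.2
  have hΛ : ∃ Λ : Pi → A → Fin (F * F + 1), ∀ π,
      (∃ c : A → Fin (F * F), ∀ a b, a ≠ b → Q π a b → c a ≠ c b) →
        ∀ a b, a ≠ b → Q π a b → Λ π a ≠ Λ π b := by
    refine ⟨fun π => if hπ : ∃ c : A → Fin (F * F), ∀ a b, a ≠ b → Q π a b → c a ≠ c b then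
      fun a => (hπ.choose a).castSucc else fun _ => 0, ?_⟩
    intro π hπ a b hab hQ
    simp only [dif_pos hπ]
    intro he
    exact hπ.choose_spec a b hab hQ (Fin.castSucc_injective _ he)
  obtain ⟨Λ, hΛ⟩ := hΛ
  let Col := (Pattern (Fin k) × Pattern (Fin l) × (T → Option T) × (T' → Option T') ×
    (Pi → Fin (F * F + 1))) × Fin M
  let c : A × (Fin k → ShiftV (2 ^ h)) × (Fin l → ShiftV (2 ^ h')) → Col := fun u =>
    ((pattern (shift (2 ^ h)) u.2.1, pattern (shift (2 ^ h')) u.2.2,
      (f (g (idx u.2.1) (idx u.2.2))).1 ∘ idx u.2.1,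
      (f (g (idx u.2.1) (idx u.2.2))).2 ∘ idx u.2.2, fun π => Λ π u.1),
        g (idx u.2.1) (idx u.2.2))
  have hc : ∀ u v : A × (Fin k → ShiftV (2 ^ h)) × (Fin l → ShiftV (2 ^ h')),
      (∃ (w : Fin m → ShiftV (2 ^ h)) (w' : Fin m' → ShiftV (2 ^ h')),
        P.rule _ _ u.1 v.1 (pattern (shift (2 ^ h)) (Sum.elim u.2.1 (Sum.elim v.2.1 w)))
          (pattern (shift (2 ^ h')) (Sum.elim u.2.2 (Sum.elim v.2.2 w')))) →
      u ≠ v → c u ≠ c v := by
    rintro ⟨a, x, x'⟩ ⟨b, y, y'⟩ ⟨w, w', hR⟩ hne he
    simp only at hR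
    have h0 : g (idx x) (idx x') = g (idx y) (idx y') := congrArg (fun p : Col => p.2) he
    have h2 : pattern (shift (2 ^ h)) x = pattern (shift (2 ^ h)) y :=
      congrArg (fun p : Col => p.1.1) he
    have h3 : pattern (shift (2 ^ h')) x' = pattern (shift (2 ^ h')) y' :=
      congrArg (fun p : Col => p.1.2.1) he
    have h4 : (f (g (idx x) (idx x'))).1 ∘ idx x = (f (g (idx y) (idx y'))).1 ∘ idx y :=
      congrArg (fun p : Col => p.1.2.2.1) he
    have h5 : (f (g (idx x) (idx x'))).2 ∘ idx x' = (f (g (idx y) (idx y'))).2 ∘ idx y' :=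
      congrArg (fun p : Col => p.1.2.2.2.1) he
    have h6 : (fun π => Λ π a) = (fun π => Λ π b) :=
      congrArg (fun p : Col => p.1.2.2.2.2) he
    rw [← h0] at h4 h5
    obtain ⟨g1, g2⟩ := hg (idx x) (idx x')
    obtain ⟨s1, s2⟩ := hash_sh x y _ g1 h4
    obtain ⟨s3, s4⟩ := hash_sh x' y' _ g2 h5
    obtain ⟨H, z, hH, hz, hzi⟩ := chain2 (shift (2 ^ h)) x y w h2 s1 s2 (F * F)
      (U := ShiftV (2 ^ h)) hV
    obtain ⟨H', z', hH', hz', hzi'⟩ := chain2 (shift (2 ^ h')) x' y' w' h3 s3 s4 (F * F)
      (U := ShiftV (2 ^ h')) hV'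
    obtain ⟨c0⟩ := hB H H' hH hH'
    have hadj : ∀ (a' b' : A) (s t : Fin (F * F + 1)), s < t →
        Q (pattern (shift (2 ^ h)) (Sum.elim x (Sum.elim y w)),
          pattern (shift (2 ^ h')) (Sum.elim x' (Sum.elim y' w'))) a' b' →
        ((a' ≠ b') ∨ (z s ≠ z t) ∨ (z' s ≠ z' t)) →
        c0 (a', z s, z' s) ≠ c0 (b', z t, z' t) := by
      intro a' b' s t hst hQ hor
      apply c0.valid
      rw [GadgetProduct.graph, SimpleGraph.fromRel_adj]
      refine ⟨?_, Or.inl ?_⟩
      · intro heq
        rcases hor with h7 | h7 | h7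
        · exact h7 (congrArg (fun p => p.1) heq)
        · exact h7 (congrArg (fun p => p.2.1) heq)
        · exact h7 (congrArg (fun p => p.2.2) heq)
      · obtain ⟨ww, hww⟩ := hz s t hst
        obtain ⟨ww', hww'⟩ := hz' s t hst
        refine ⟨ww, ww', ?_⟩
        simp only
        rw [hww, hww']
        exact hQ
    by_cases hab : a = b
    · -- clique
      subst hab
      have hor : x ≠ y ∨ x' ≠ y' := by
        by_contra hcon
        push Not at hcon
        exact hne (by rw [hcon.1, hcon.2])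
      have hlt : ∀ s t : Fin (F * F + 1), s < t → c0 (a, z s, z' s) ≠ c0 (a, z t, z' t) := by
        intro s t hst
        apply hadj a a s t hst hR
        rcases hor with h7 | h7
        · exact Or.inr (Or.inl (fun h8 => hst.ne (hzi h7 s t h8)))
        · exact Or.inr (Or.inr (fun h8 => hst.ne (hzi' h7 s t h8)))
      have hinj : Function.Injective (fun s : Fin (F * F + 1) => c0 (a, z s, z' s)) := by
        intro s t h
        rcases lt_trichotomy s t with h1 | h1 | h1
        · exact absurd h (hlt s t h1)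
        · exact h1
        · exact absurd h.symm (hlt t s h1)
      have := Fintype.card_le_of_injective _ hinj
      simp only [Fintype.card_fin] at this
      nlinarith
    · -- labels
      have h7 : Λ (pattern (shift (2 ^ h)) (Sum.elim x (Sum.elim y w)),
          pattern (shift (2 ^ h')) (Sum.elim x' (Sum.elim y' w'))) a =
          Λ (pattern (shift (2 ^ h)) (Sum.elim x (Sum.elim y w)),
          pattern (shift (2 ^ h')) (Sum.elim x' (Sum.elim y' w'))) b := congrFun h6 _
      refine hΛ _ ?_ a b hab hR h7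
      apply label_lemma
      intro s
      refine ⟨fun a' => c0 (a', z (s a'), z' (s a')), ?_⟩
      intro a' b' hQ hlt
      apply hadj a' b' (s a') (s b') hlt hQ
      left
      rintro rfl
      exact lt_irrefl _ hlt
  have hcol : (P.graph (shift (2 ^ h)) (shift (2 ^ h'))).Coloring Col :=
    SimpleGraph.Coloring.mk c (by
      intro u v huv
      rw [GadgetProduct.graph, SimpleGraph.fromRel_adj] at huv
      rcases huv with ⟨hne, hR | hR⟩
      · exact hc u v hR hne
      · exact (hc v u hR hne.symm).symm)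
  have : Finite Col := inferInstance
  have : Fintype Col := Fintype.ofFinite Col
  have h6 := hcol.colorable
  have h7 : Fintype.card Col = K * M := by
    rw [← Nat.card_eq_fintype_card]
    change Nat.card (_ × Fin M) = _
    rw [Nat.card_prod, Nat.card_eq_fintype_card (α := Fin M), Fintype.card_fin]
  rw [h7] at h6
  refine h6.mono ?_
  rw [mul_assoc]
  exact Nat.mul_le_mul_left _ hM

theorem colorable_bound {k l m m' : ℕ} (P : GadgetProduct k l m m') (hP : Bounded P) (r r' : ℕ) :
    ∃ B : ℕ, ∀ (U U' : Type) [Finite U] [Finite U'] [Nonempty U] [Nonempty U']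
      (H : SimpleGraph U) (H' : SimpleGraph U'),
      H.Colorable r → H'.Colorable r' → (P.graph H H').Colorable B := by
  obtain ⟨f, hf⟩ := hP
  refine ⟨∑ i ∈ Finset.range (r + 1), ∑ j ∈ Finset.range (r' + 1), f i j, ?_⟩
  intro U U' _ _ _ _ H H' hH hH'
  obtain ⟨s, hs⟩ := ENat.ne_top_iff_exists.1
    (ne_top_of_le_ne_top (ENat.natCast_ne_top r) hH.chromaticNumber_le)
  obtain ⟨s', hs'⟩ := ENat.ne_top_iff_exists.1
    (ne_top_of_le_ne_top (ENat.natCast_ne_top r') hH'.chromaticNumber_le)
  have h1 : s ≤ r := by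
    have := hH.chromaticNumber_le
    rw [← hs] at this
    exact_mod_cast this
  have h1' : s' ≤ r' := by
    have := hH'.chromaticNumber_le
    rw [← hs'] at this
    exact_mod_cast this
  have h2 := hf U U' H H' s s' hs.symm hs'.symm
  rw [SimpleGraph.chromaticNumber_le_iff_colorable] at h2
  refine h2.mono ?_
  calc f s s' ≤ ∑ j ∈ Finset.range (r' + 1), f s j :=
        Finset.single_le_sum (f := fun j => f s j) (fun _ _ => Nat.zero_le _)
          (Finset.mem_range.2 (by omega))
    _ ≤ _ := Finset.single_le_sum (f := fun i => ∑ j ∈ Finset.range (r' + 1), f i j)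
          (fun _ _ => Nat.zero_le _) (Finset.mem_range.2 (by omega))

theorem shift_card' (h : ℕ) : h ≤ Nat.card (ShiftV (2 ^ h)) := by
  have h1 : h < 2 ^ h := Nat.lt_two_pow_self
  obtain ⟨n, hn⟩ : ∃ n, 2 ^ h = n + 1 := ⟨2 ^ h - 1, by omega⟩
  rw [hn, Nat.card_eq_fintype_card]
  have := shift_card n
  omega

theorem main {k l m m' : ℕ} (P : GadgetProduct k l m m') (hP : Bounded P) :
    ∃ C h₀ : ℕ, ∀ h h' : ℕ, h₀ ≤ h → h₀ ≤ h' →
      ∃ (V V' : Type) (_ : Finite V) (_ : Finite V') (_ : Nonempty V) (_ : Nonempty V')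
        (G : SimpleGraph V) (G' : SimpleGraph V'),
        G.chromaticNumber = h ∧ G'.chromaticNumber = h' ∧
          (P.graph G G').chromaticNumber ≤ (C * max h h' : ℕ) := by
  obtain ⟨F, hF⟩ := colorable_bound P hP (k + (k + (k + m)) + 1) (l + (l + (l + m')) + 1)
  obtain ⟨C, hC⟩ := color_shift k l m m' F
  refine ⟨3 * C, (k * (F * F + 2) + (k + (k + m)) * ((F * F + 1) * (F * F + 1))) +
    (l * (F * F + 2) + (l + (l + m')) * ((F * F + 1) * (F * F + 1))) + 1, fun h h' hh hh' => ?_⟩
  obtain ⟨j, rfl⟩ : ∃ j, h = j + 1 := ⟨h - 1, by omega⟩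
  obtain ⟨j', rfl⟩ : ∃ j', h' = j' + 1 := ⟨h' - 1, by omega⟩
  have hc1 := shift_card' (j + 1)
  have hc2 := shift_card' (j' + 1)
  have h1 := hC P (j + 1) (j' + 1) (by omega) (by omega) (fun H H' => hF _ _ H H')
  refine ⟨ShiftV (2 ^ (j + 1)), ShiftV (2 ^ (j' + 1)), inferInstance, inferInstance,
    inferInstance, inferInstance, shift (2 ^ (j + 1)), shift (2 ^ (j' + 1)),
    shift_chromatic _, shift_chromatic _, ?_⟩
  rw [SimpleGraph.chromaticNumber_le_iff_colorable]
  refine h1.mono ?_
  have h2 : j + 1 ≤ max (j + 1) (j' + 1) := le_max_left _ _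
  have h3 : j' + 1 ≤ max (j + 1) (j' + 1) := le_max_right _ _
  calc C * (j + 1 + (j' + 1) + 1) ≤ C * (3 * max (j + 1) (j' + 1)) :=
        Nat.mul_le_mul_left _ (by omega)
    _ = 3 * C * max (j + 1) (j' + 1) := by ring

/-- Let `*` be a gadget product.
(1) If `χ(G * G')` is bounded by a function of `χ(G)` and `χ(G')`, then there are constants `C`, `h₀`
such that for all `h, h' ≥ h₀` there are graphs `G`, `G'` with `χ(G) = h`, `χ(G') = h'` and
`χ(G * G') ≤ C max(h, h')`.
(2) Consequently `*` is not `c`-multiplicative for any `c > 0`. -/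
theorem result {k l m m' : ℕ} (P : GadgetProduct k l m m') :
    (Bounded P → ∃ C h₀ : ℕ, ∀ h h' : ℕ, h₀ ≤ h → h₀ ≤ h' →
      ∃ (V V' : Type) (_ : Finite V) (_ : Finite V') (_ : Nonempty V) (_ : Nonempty V')
        (G : SimpleGraph V) (G' : SimpleGraph V'),
        G.chromaticNumber = h ∧ G'.chromaticNumber = h' ∧
          (P.graph G G').chromaticNumber ≤ (C * max h h' : ℕ)) ∧
    ∀ c : ℝ, 0 < c → ¬ Multiplicative P c := by
  refine ⟨main P, ?_⟩
  intro c hc hM
  have hb : Bounded P := by
    refine ⟨fun i j => i * j, ?_⟩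
    intro V V' _ _ _ _ G G' r r' hr hr'
    obtain ⟨s, hs, -, hs2⟩ := hM V V' G G' r r' hr hr'
    rw [hs]
    exact_mod_cast hs2
  obtain ⟨C, h₀, hC⟩ := main P hb
  obtain ⟨n0, hn0⟩ := exists_nat_gt ((C : ℝ) / c)
  obtain ⟨n, hn1, hn2⟩ : ∃ n : ℕ, n0 ≤ n ∧ h₀ ≤ n := ⟨max n0 h₀, le_max_left _ _, le_max_right _ _⟩
  have hn : (C : ℝ) / c < n := lt_of_lt_of_le hn0 (by exact_mod_cast hn1)
  obtain ⟨V, V', i1, i2, i3, i4, G, G', hG, hG', hle⟩ := hC (n + 1) (n + 1) (by omega) (by omega)
  obtain ⟨s, hs, hs1, -⟩ := hM V V' G G' (n + 1) (n + 1) hG hG'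
  rw [hs, max_self] at hle
  have h1 : s ≤ C * (n + 1) := by exact_mod_cast hle
  have h2 : (s : ℝ) ≤ C * (n + 1) := by exact_mod_cast h1
  have h3 : (C : ℝ) < c * n := by
    rw [div_lt_iff₀ hc] at hn
    linarith
  push_cast at hs1
  have h4 : (0 : ℝ) < (n : ℝ) + 1 := by positivity
  have h5 : c * ((n : ℝ) + 1) * ((n : ℝ) + 1) ≤ C * ((n : ℝ) + 1) := le_trans hs1 h2
  have h6 : c * ((n : ℝ) + 1) ≤ C := le_of_mul_le_mul_right h5 h4
  nlinarith

end Pool.Agent.Results.MP_99abf8_co.GadgetProducts
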