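import Pool.Agent.H829.GraphProducts

/-!
# Local products multiply the fractional chromatic number by at most a polynomial

`MP_99abf8_co` asks for a polynomial graph product `*` with
`c χ(G) χ(H) ≤ χ(G * H) ≤ χ(G) χ(H)` for all graphs `G`, `H`.

A local product of dimension `(a, b)` has as its vertices the triples `(i, x, x')`, where `i` is one
of `r + 1` kinds, `x` an `a`-tuple of vertices of `G` and `x'` a `b`-tuple of vertices of `H`, and
the adjacency of `(i, x, x')` and `(j, y, y')` depends only on `i, j` and on the relations (equal,
adjacent, or neither) between the entries of `x, y` in `G` and between the entries of `x', y'` in `H`.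
For `a = b = 1` and one kind these are the `2 ^ 8` products mentioned in the problem.

It is shown that if `χ(G * H)` is bounded by a function of `χ(G)` and `χ(H)`, then
`χ_f(G * H) ≤ K χ_f(G) ^ a χ_f(H) ^ b` for all graphs `G`, `H`, where the constant `K` depends only
on `r, a, b`.
-/

set_option autoImplicit false

namespace Pool.Agent.Results.MP_99abf8_co.LocalProducts

open Pool.Agent.H829.GraphProducts

theorem result : ∀ r a b : ℕ, ∃ K : ℝ,
    ∀ (R : Fin (r + 1) → Fin (r + 1) → Tp a → Tp b → Prop) (Φ : ℕ → ℕ → ℕ),
      (∀ G H : FGraph, chi (locProd R G H) ≤ Φ (chi G) (chi H)) →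
      ∀ G H : FGraph, chif (locProd R G H) ≤ K * (chif G ^ a * chif H ^ b) :=
  fun r a b => ⟨((r + 1) * (cst a * cst b) : ℕ), fun _ _ hR G H =>
    chif_of_noFold (noFold_loc hR) G H⟩

end Pool.Agent.Results.MP_99abf8_co.LocalProducts
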